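import Mathlib

/-! Few affine equivalence classes of `k`-point subsets in a thin grid. -/

namespace Pool.Agent.Results.MP_b430f2_co.Shear

open Finset Classical

/-- an invertible affine map of the plane maps `A` onto `B` -/
def AffEq (A B : Finset (ℝ × ℝ)) : Prop :=
  ∃ (M : (ℝ × ℝ) ≃ₗ[ℝ] (ℝ × ℝ)) (v : ℝ × ℝ), A.image (fun x => M x + v) = B

/-- integer points -/
def em (p : ℤ × ℤ) : ℝ × ℝ := (p.1, p.2)

theorem em_inj : Function.Injective em := fun p q h => by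
  simp only [em, Prod.mk.injEq, Int.cast_inj] at h
  exact Prod.ext h.1 h.2

/-- translation followed by a shear -/
def sh (c : ℤ) (o p : ℤ × ℤ) : ℤ × ℤ := (p.1 - o.1, p.2 - o.2 - c * (p.1 - o.1))

theorem sh_inj (c : ℤ) (o : ℤ × ℤ) : Function.Injective (sh c o) := fun p q h => by
  simp only [sh, Prod.mk.injEq] at h
  have h1 : p.1 = q.1 := by omega
  rw [h1] at h
  exact Prod.ext h1 (by omega)

theorem aff (c : ℤ) (o : ℤ × ℤ) (A : Finset (ℤ × ℤ)) :
    AffEq (A.image em) ((A.image (sh c o)).image em) := by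
  refine ⟨(LinearEquiv.refl ℝ ℝ).skewProd (LinearEquiv.refl ℝ ℝ) ((-(c : ℝ)) • LinearMap.id),
    (-o.1, -o.2 + c * o.1), ?_⟩
  rw [image_image, image_image]
  refine image_congr fun p _ => ?_
  simp [em, sh, LinearEquiv.skewProd_apply]
  constructor <;> ring

theorem grid (a b k : ℕ) (hab : a ≤ b) : ∃ R : Finset (Finset (ℤ × ℤ)),
    R.card ≤ (2 * b + 1) ^ (k + 1) + (a + 1) ^ 2 * ((2 * a + 1) * (6 * b + 1)) ^ k ∧
    ∀ A ⊆ Ico (0 : ℤ) a ×ˢ Ico (0 : ℤ) b, A.card = k + 2 → ∃ c o, A.image (sh c o) ∈ R := by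
  let V : Finset (ℤ × ℤ) := {0} ×ˢ Icc (-(b : ℤ)) b
  let X : Finset (ℤ × ℤ) := Icc (-(a : ℤ)) a ×ˢ Icc (-(3 * b : ℤ)) (3 * b)
  let Y : Finset (ℤ × ℤ) := Icc (0 : ℤ) a ×ˢ Icc (0 : ℤ) a
  have hV : V.card = 2 * b + 1 := by simp [V]; omega
  have hX : X.card = (2 * a + 1) * (6 * b + 1) := by
    simp only [X, card_product, Int.card_Icc]; congr 1 <;> omega
  have hY : Y.card = (a + 1) ^ 2 := by
    simp only [Y, card_product, Int.card_Icc, sq]; congr 1
  refine ⟨(powersetCard (k + 1) V).image (insert 0) ∪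
    (Y ×ˢ powersetCard k X).image fun z => insert 0 (insert z.1 z.2), ?_, fun A hA hk => ?_⟩
  · refine (card_union_le _ _).trans (add_le_add (card_image_le.trans ?_) (card_image_le.trans ?_))
    · rw [card_powersetCard, hV]; exact Nat.choose_le_pow _ _
    · rw [card_product, card_powersetCard, hX, hY]
      exact Nat.mul_le_mul_left _ (Nat.choose_le_pow _ _)
  have hne : A.Nonempty := card_pos.1 (by omega)
  obtain ⟨o, ho, h1⟩ := exists_min_image A Prod.fst hne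
  obtain ⟨u, hu, h2⟩ := exists_max_image A Prod.fst hne
  have bd : ∀ p ∈ A, (0 ≤ p.1 ∧ p.1 < a) ∧ 0 ≤ p.2 ∧ p.2 < b := fun p hp => by
    simpa only [mem_product, mem_Ico] using hA hp
  have z : ∀ c, (0 : ℤ × ℤ) ∈ A.image (sh c o) := fun c => mem_image.2 ⟨o, ho, by simp [sh]⟩
  have hc : ∀ c, (A.image (sh c o)).card = k + 2 := fun c => by
    rw [card_image_of_injective _ (sh_inj c o), hk]
  have bo := bd o ho
  have bu := bd u hu
  rcases (h1 u hu).eq_or_lt with e | e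
  · refine ⟨0, o, mem_union_left _ (mem_image.2 ⟨(A.image (sh 0 o)).erase 0,
      mem_powersetCard.2 ⟨fun q hq => ?_, by rw [card_erase_of_mem (z 0), hc]; rfl⟩,
      insert_erase (z 0)⟩)⟩
    obtain ⟨p, hp, rfl⟩ := mem_image.1 (mem_of_mem_erase hq)
    have := bd p hp
    have := h1 p hp
    have := h2 p hp
    simp only [V, sh, mem_product, mem_singleton, mem_Icc]
    omega
  · set w := u.1 - o.1 with hw
    set c := (u.2 - o.2) / w with hcd
    have w0 : 0 < w := by omega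
    have m1 := Int.emod_nonneg (u.2 - o.2) w0.ne'
    have m2 := Int.emod_lt_of_pos (u.2 - o.2) w0
    have m3 := Int.emod_add_ediv_mul (u.2 - o.2) w
    rw [← hcd] at m3
    have hu' : sh c o u ∈ (A.image (sh c o)).erase 0 :=
      mem_erase.2 ⟨fun h => by simp only [sh, Prod.ext_iff, Prod.fst_zero] at h; omega,
        mem_image_of_mem _ hu⟩
    refine ⟨c, o, mem_union_right _ (mem_image.2 ⟨(sh c o u,
      ((A.image (sh c o)).erase 0).erase (sh c o u)), mem_product.2 ⟨?_,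
      mem_powersetCard.2 ⟨fun q hq => ?_, ?_⟩⟩, ?_⟩)⟩
    · simp only [Y, sh, mem_product, mem_Icc, ← hw]
      omega
    · obtain ⟨p, hp, rfl⟩ := mem_image.1 (mem_of_mem_erase (mem_of_mem_erase hq))
      have := bd p hp
      have g1 := h1 p hp
      have g2 := h2 p hp
      have g3 : |c * (p.1 - o.1)| ≤ |c * w| := by
        rw [abs_mul, abs_mul]
        exact mul_le_mul_of_nonneg_left (abs_le_abs (by omega) (by omega)) (abs_nonneg _)
      have g4 : |c * w| ≤ 2 * b := abs_le.2 (by omega)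
      have g5 := abs_le.1 (g3.trans g4)
      simp only [X, sh, mem_product, mem_Icc]
      omega
    · rw [card_erase_of_mem hu', card_erase_of_mem (z c), hc]; rfl
    · simp only
      rw [insert_erase hu', insert_erase (z c)]

theorem result (k : ℕ) (hk : 2 ≤ k) : ∃ C : ℝ, ∀ n : ℕ, 1 ≤ n → ∃ P : Finset (ℝ × ℝ), P.card = n ∧
    ∃ R : Finset (Finset (ℝ × ℝ)), (R.card : ℝ) ≤ C * (n : ℝ) ^ ((k : ℝ) - 2 + 2 / (k + 1)) ∧
      ∀ A ⊆ P, A.card = k → ∃ B ∈ R, AffEq A B := by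
  obtain ⟨k, rfl⟩ := Nat.exists_eq_add_of_le' hk
  refine ⟨5 ^ (k + 1) + 9 * 65 ^ k, fun n hn => ?_⟩
  have n1 : (1 : ℝ) ≤ n := by exact_mod_cast hn
  set t : ℝ := (n : ℝ) ^ (1 / (k + 3 : ℝ)) with ht
  have t1 : 1 ≤ t := Real.one_le_rpow n1 (by positivity)
  have tn : t ^ (k + 3) = n := by
    rw [ht, ← Real.rpow_natCast, ← Real.rpow_mul (by positivity)]
    push_cast
    rw [one_div_mul_cancel (by positivity), Real.rpow_one]
  have te : (n : ℝ) ^ (((k + 2 : ℕ) : ℝ) - 2 + 2 / ((k + 2 : ℕ) + 1)) = t ^ ((k + 2) * (k + 1)) := by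
    rw [ht, ← Real.rpow_natCast, ← Real.rpow_mul (by positivity)]
    congr 1
    push_cast
    field_simp
    ring
  have s1 : t ≤ t ^ (k + 2) := le_self_pow₀ t1 (by omega)
  have a1 := Nat.le_ceil t
  have a2 := (Nat.ceil_lt_add_one (by linarith : 0 ≤ t)).le
  have b1 := Nat.le_ceil (t ^ (k + 2))
  have b2 := (Nat.ceil_lt_add_one (by positivity : 0 ≤ t ^ (k + 2))).le
  obtain ⟨R, hR, hA⟩ := grid ⌈t⌉₊ ⌈t ^ (k + 2)⌉₊ k (Nat.ceil_mono s1)
  have hn' : n ≤ (Ico (0 : ℤ) ⌈t⌉₊ ×ˢ Ico (0 : ℤ) ⌈t ^ (k + 2)⌉₊).card := by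
    have : (n : ℝ) ≤ ⌈t⌉₊ * ⌈t ^ (k + 2)⌉₊ := by
      rw [← tn, pow_succ']
      exact mul_le_mul a1 b1 (by positivity) (by positivity)
    simp only [card_product, Int.card_Ico, sub_zero, Int.toNat_natCast]
    exact_mod_cast this
  obtain ⟨Q, hQ, hc⟩ := exists_subset_card_eq hn'
  refine ⟨Q.image em, by rw [card_image_of_injective _ em_inj, hc], R.image (image em), ?_,
    fun A h1 h2 => ?_⟩
  · have h3 : ((R.image (image em)).card : ℝ) ≤ (2 * ⌈t ^ (k + 2)⌉₊ + 1) ^ (k + 1) +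
        (⌈t⌉₊ + 1) ^ 2 * ((2 * ⌈t⌉₊ + 1) * (6 * ⌈t ^ (k + 2)⌉₊ + 1)) ^ k := by
      exact_mod_cast card_image_le.trans hR
    refine h3.trans ?_
    rw [te, add_mul ((5 : ℝ) ^ (k + 1))]
    refine add_le_add ?_ ?_
    · rw [pow_mul, ← mul_pow]
      exact pow_le_pow_left₀ (by positivity) (by linarith) _
    · calc _ ≤ (3 * t) ^ 2 * ((5 * t) * (13 * t ^ (k + 2))) ^ k := by
            gcongr <;> linarith
        _ = _ := by ring
  · obtain ⟨A, hA', rfl⟩ := subset_image_iff.1 h1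
    rw [card_image_of_injective _ em_inj] at h2
    obtain ⟨c, o, h⟩ := hA A (hA'.trans hQ) h2
    exact ⟨_, mem_image_of_mem _ h, aff c o A⟩

end Pool.Agent.Results.MP_b430f2_co.Shear
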